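import Pool.Agent.helper70.BR.SpecR

set_option autoImplicit false

namespace Pool.Agent.BR

open Pool.Agent.helper58.DC Pool.Agent.DI Pool.Agent.GR Pool.Agent.OB Pool.Agent.DR Pool.Agent.FI Pool.Agent.FI3 Pool.Agent.FI4 Pool.Agent.LE

/-- One term of `TH`. -/
noncomputable def THC_F {G : Type} [Group G] (M : Ideal (integralClosure ℤ ℂ)) (D : Subgroup G) (θ : G → ℂ) (l : D →* ℂˣ)
    (ψ : G → ℂ) (c : ℂ) (v : G) (hv : v ∈ D) (y : G) : ℂ :=
  ci M D θ v / c * (l ⟨v, hv⟩ : ℂ) * ev ψ (eS (Cz (⊤ : Subgroup G) v) (Bl M (Cz (⊤ : Subgroup G) v) θ)) y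

theorem THC_F_eq {G : Type} [Group G] (M : Ideal (integralClosure ℤ ℂ)) (D : Subgroup G) (θ : G → ℂ) (l : D →* ℂˣ)
    (ψ : G → ℂ) {c c' : ℂ} {v v' : G} (hv : v ∈ D) (hv' : v' ∈ D) {y y' : G} (h1 : c = c') (h2 : v = v') (h3 : y = y') :
    THC_F M D θ l ψ c v hv y = THC_F M D θ l ψ c' v' hv' y' := by
  subst h1; subst h2; subst h3; rfl

theorem THC_TH {G : Type} [Group G] (M : Ideal (integralClosure ℤ ℂ)) (D : Subgroup G) (θ : G → ℂ) (l : D →* ℂˣ)
    (ψ : G → ℂ) (u w : G) : TH M D θ l ψ u w = ∑ᶠ t : {t : G // t * u * t⁻¹ ∈ D},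
      THC_F M D θ l ψ (Nat.card (Cz (⊤ : Subgroup G) u)) (t * u * (t : G)⁻¹) t.2 (t * (u * w) * (t : G)⁻¹) := rfl

theorem THC_mem {G : Type} [Group G] (u x : G) : x ∈ Cz (⊤ : Subgroup G) u ↔ u * x = x * u := by
  unfold Cz
  rw [Subgroup.mem_inf, Subgroup.mem_centralizer_iff]
  constructor
  · intro h
    exact h.2 u rfl
  · intro h
    refine ⟨Subgroup.mem_top _, ?_⟩
    intro y hy
    rw [Set.mem_singleton_iff] at hy
    rw [hy]; exact h

theorem THC_card {G : Type} [Group G] (g u : G) :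
    Nat.card (Cz (⊤ : Subgroup G) (g * u * g⁻¹)) = Nat.card (Cz (⊤ : Subgroup G) u) := by
  refine Nat.card_congr ⟨fun x => ⟨g⁻¹ * x * g, ?_⟩, fun x => ⟨g * x * g⁻¹, ?_⟩, ?_, ?_⟩
  · have h := (THC_mem _ _).1 x.2
    rw [THC_mem]
    calc u * (g⁻¹ * (x : G) * g) = g⁻¹ * ((g * u * g⁻¹) * x) * g := by group
      _ = g⁻¹ * (x * (g * u * g⁻¹)) * g := by rw [h]
      _ = _ := by group
  · have h := (THC_mem _ _).1 x.2
    rw [THC_mem]
    calc g * u * g⁻¹ * (g * (x : G) * g⁻¹) = g * (u * x) * g⁻¹ := by group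
      _ = g * (x * u) * g⁻¹ := by rw [h]
      _ = _ := by group
  · intro x
    apply Subtype.ext
    change g * (g⁻¹ * (x : G) * g) * g⁻¹ = x
    group
  · intro x
    apply Subtype.ext
    change g⁻¹ * (g * (x : G) * g⁻¹) * g = x
    group

theorem THC_div {G : Type} [Group G] [Finite G] (H : Subgroup G) :
    ∃ q : ℕ, (Nat.card G : ℂ) / Nat.card H = q := by
  obtain ⟨q, hq⟩ := Subgroup.card_subgroup_dvd_card H
  refine ⟨q, ?_⟩
  have h0 : (Nat.card H : ℂ) ≠ 0 := by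
    have : 0 < Nat.card H := Nat.card_pos
    exact_mod_cast this.ne'
  rw [hq]
  push_cast
  field_simp

theorem THC_nat (n : ℕ) : IsIntegral ℤ (n : ℂ) := by
  have := isIntegral_algebraMap (R := ℤ) (A := ℂ) (x := (n : ℤ))
  simpa using this

theorem THC_l {G : Type} [Group G] [Finite G] (D : Subgroup G) (l : D →* ℂˣ) (v : D) : IsIntegral ℤ (l v : ℂ) := by
  have h0 : 0 < Nat.card D := Nat.card_pos
  have h1 : (l v : ℂ) ^ Nat.card D = 1 := by
    have h2 : v ^ Nat.card D = 1 := pow_card_eq_one'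
    have h3 : (l v) ^ Nat.card D = 1 := by rw [← map_pow, h2, map_one]
    have h4 := congrArg (fun z : ℂˣ => (z : ℂ)) h3
    simpa using h4
  refine IsIntegral.of_pow h0 ?_
  rw [h1]
  exact isIntegral_one

theorem THC_eS (hB2 : B2_stmt) {G : Type} [Group G] [Finite G] (K : Subgroup G) (S : Set (G → ℂ)) (hS : S ⊆ IrrOn K) (x : G) :
    IsIntegral ℤ ((Nat.card G : ℂ) * eS K S x) := by
  obtain ⟨q, hq⟩ := THC_div K
  have h1 : (Nat.card G : ℂ) * eS K S x = q * ∑ᶠ ψ ∈ S, ψ 1 * ψ x⁻¹ := by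
    unfold eS
    rw [← hq]
    ring
  rw [h1]
  refine IsIntegral.mul (THC_nat q) ?_
  refine finsum_mem_induction (fun z : ℂ => IsIntegral ℤ z) isIntegral_zero (fun a b ha hb => IsIntegral.add ha hb) ?_
  intro η hη
  have h2 := ((hB2 G K).2 η (hS hη)).2.2.1
  exact IsIntegral.mul (h2 _) (h2 _)

theorem THC_ev (hB2 : B2_stmt) {G : Type} [Group G] [Finite G] (K : Subgroup G) (S : Set (G → ℂ)) (hS : S ⊆ IrrOn K)
    (ψ : G → ℂ) (hψ : ψ ∈ IrrOn (⊤ : Subgroup G)) (y : G) :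
    IsIntegral ℤ ((Nat.card G : ℂ) * ev ψ (eS K S) y) := by
  let _ : Fintype G := Fintype.ofFinite G
  have h1 : (Nat.card G : ℂ) * ev ψ (eS K S) y = ∑ x : G, ((Nat.card G : ℂ) * eS K S x) * ψ (y * x) := by
    unfold ev
    rw [finsum_eq_sum_of_fintype, Finset.mul_sum]
    exact Finset.sum_congr rfl fun x _ => by ring
  rw [h1]
  refine IsIntegral.sum _ fun x _ => ?_
  exact IsIntegral.mul (THC_eS hB2 K S hS x) (((hB2 G ⊤).2 ψ hψ).2.2.1 _)

theorem THC (hC3 : C3_stmt) (hB2 : B2_stmt) : THC_stmt := by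
  intro p M hM G _ _ D θ l ψ hψ
  refine ⟨?_, ?_⟩
  · intro g u w
    rw [THC_TH, THC_TH]
    refine finsum_eq_of_bijective (fun t : {t : G // t * (g * u * g⁻¹) * t⁻¹ ∈ D} =>
      (⟨t * g, by
        have h := t.2
        have h2 : (t : G) * g * u * ((t : G) * g)⁻¹ = t * (g * u * g⁻¹) * (t : G)⁻¹ := by group
        rw [h2]; exact h⟩ : {t : G // t * u * t⁻¹ ∈ D})) ?_ ?_
    · constructor
      · intro a b hab
        have h := congrArg Subtype.val hab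
        exact Subtype.ext (mul_right_cancel h)
      · intro b
        refine ⟨⟨b * g⁻¹, ?_⟩, ?_⟩
        · have h2 : (b : G) * g⁻¹ * (g * u * g⁻¹) * ((b : G) * g⁻¹)⁻¹ = b * u * (b : G)⁻¹ := by group
          rw [h2]; exact b.2
        · apply Subtype.ext
          change (b : G) * g⁻¹ * g = b
          group
    · intro t
      refine THC_F_eq M D θ l ψ _ _ ?_ ?_ ?_
      · rw [THC_card]
      · change (t : G) * (g * u * g⁻¹) * (t : G)⁻¹ = t * g * u * (t * g)⁻¹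
        group
      · change (t : G) * (g * u * g⁻¹ * (g * w * g⁻¹)) * (t : G)⁻¹ = t * g * (u * w) * (t * g)⁻¹
        group
  · refine ⟨Nat.card G ^ 3, pow_pos Nat.card_pos 3, ?_⟩
    intro u w
    refine IntAt.of_isIntegral hM ?_
    rw [THC_TH]
    let _ : Fintype {t : G // t * u * t⁻¹ ∈ D} := Fintype.ofFinite _
    rw [finsum_eq_sum_of_fintype, Finset.mul_sum]
    refine IsIntegral.sum _ fun t _ => ?_
    obtain ⟨q1, hq1⟩ := THC_div (G := G) (cz D)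
    obtain ⟨q2, hq2⟩ := THC_div (G := G) (Cz (⊤ : Subgroup G) u)
    have h1 : ((Nat.card G ^ 3 : ℕ) : ℂ) * THC_F M D θ l ψ (Nat.card (Cz (⊤ : Subgroup G) u)) (t * u * (t : G)⁻¹) t.2
        (t * (u * w) * (t : G)⁻¹) =
        ((Nat.card (Cz (TT M D θ) (t * u * (t : G)⁻¹)) : ℂ) * q1) * q2 * (l ⟨t * u * (t : G)⁻¹, t.2⟩ : ℂ) *
        ((Nat.card G : ℂ) * ev ψ (eS (Cz (⊤ : Subgroup G) (t * u * (t : G)⁻¹)) (Bl M (Cz (⊤ : Subgroup G) (t * u * (t : G)⁻¹)) θ))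
          (t * (u * w) * (t : G)⁻¹)) := by
      rw [← hq1, ← hq2]
      unfold THC_F ci
      push_cast
      ring
    rw [h1]
    refine IsIntegral.mul (IsIntegral.mul (IsIntegral.mul (IsIntegral.mul (THC_nat _) (THC_nat _)) (THC_nat _)) (THC_l D l _)) ?_
    exact THC_ev hB2 _ _ (fun η hη => hη.1) ψ hψ _

end Pool.Agent.BR
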